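import Mathlib
import Pool.Agent.W964.Wd.Alt.Defs
import Pool.Agent.W964.Wd.Etr.Asym

/-!
Guessed real numbers and guessed bits on ideal parallel random access machines (priority concurrent
writing, concurrent searching of lists of cells, arbitrary instruction set, unbounded words which
may contain whole polynomials, unbounded memory, different programs for different processors,
another machine for every size of the input): `n` guessed real numbers and one step suffice to
decide whether a system of polynomial equations in `n` unknowns has a real solution, but `A n log n`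
guessed bits (even with alternation) do not suffice, for every constant `A`, for every constant
number of steps, for systems of polynomial size and polynomially many processors.
-/

set_option autoImplicit false

open Finset Filter MvPolynomial Pool.Agent.W964.Wd

namespace Pool.Agent.Results.MP_47b99f_lc.GuessedReals

/-- 1. Let `F` be a field (for instance `ℝ`). For all `n` and `M` there is a machine with guesses in
`F ^ n`, one processor for each equation and lists of length one, which decides in one step whether
`M` polynomials in `n` variables with integer coefficients, each of them the content of one cell,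
have a common zero in `F ^ n`.

2. For every `ε > 0` and `K` there is `C ≥ 1` such that the following holds for `n ≥ 1` unknowns,
`β ≥ 1`, `T ≥ 1` steps, every list `L` of existential and universal quantifiers with a finite number
of choices each (no quantifiers: machines without guesses), `C ((T + |L|) log (n β) + β) ≤ w ≤ n β`
and `M ≥ n 2 ^ w`. Let `total L` be the number of possible guesses and let `R` be a randomized
alternating machine with the quantifiers `L`, `P` processors and lists of length at most
`2 ^ (K n β)`. If `total L * (P + |L| (M + 1)) ≤ 2 ^ ((1 - ε) n β)`, then there are `M` polynomials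
in `n` variables with integer coefficients, of degree at most `w 2 ^ β` and with at most `2 ^ w`
terms each, such that for every field `F` of characteristic zero `R` gives after `T` steps the right
answer to the question whether they have a common zero in `F ^ n` with probability at most
`1 / 2 + 2 ^ (-w / C)`.

3. For all `A` and `K` there is `C ≥ 1` such that the following holds for `T ≥ 1`, `n ≥ C T` and
every list `L` of at most `T` quantifiers: if `R` is a randomized alternating machine with the
quantifiers `L`, `P ≥ 1` processors, lists of length at most `n ^ (K n)` and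
`total L * P ≤ n ^ (A n)`, then there are `n ^ (C T)` polynomials in `n` variables with integer
coefficients, of degree at most `n ^ C` and with at most `n ^ (C T)` terms each, such that for every
field `F` of characteristic zero `R` gives after `T` steps the right answer to the question whether
they have a common zero in `F ^ n` with probability at most `1 / 2 + 1 / n ^ T`. -/
theorem result :
    (∀ (F : Type) [Field F] (n M : ℕ),
      ∃ G : Guess (MvPolynomial (Fin n) ℤ) (Fin M) M (Fin n → F), G.base.Lists 1 ∧
        ∀ f, ((∃ z, (G.fix z).answer 1 f = true) ↔ ∃ z : Fin n → F, ∀ c, aeval z (f c) = 0)) ∧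
    (∀ (ε : ℝ) (K : ℕ), 0 < ε → ∃ C : ℝ, 1 ≤ C ∧
      ∀ (n β T w M : ℕ) (L : List (Bool × ℕ)), 1 ≤ n → 1 ≤ β → 1 ≤ T → (∀ qb ∈ L, 1 ≤ qb.2) →
      C * (((T + L.length : ℕ) : ℝ) * Real.log ((n * β : ℕ) : ℝ) + β) ≤ w → w ≤ n * β →
      n * 2 ^ w ≤ M →
      ∀ (P : ℕ) (R : RAMachine (MvPolynomial (Fin n) ℤ) (Fin M) P L),
        ((total L * (P + L.length * (M + 1)) : ℕ) : ℝ) ≤ 2 ^ ((1 - ε) * ((n * β : ℕ) : ℝ)) →
        R.Lists (2 ^ (K * (n * β))) →
        ∃ f : Fin M → MvPolynomial (Fin n) ℤ,
          (∀ c, (f c).totalDegree ≤ w * 2 ^ β ∧ (f c).support.card ≤ 2 ^ w) ∧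
          ∀ (F : Type) [Field F] [CharZero F],
            R.success T f (∃ z : Fin n → F, ∀ c, aeval z (f c) = 0) ≤
              1 / 2 + (2 : ℝ) ^ (-((w : ℝ) / C))) ∧
    (∀ A K : ℕ, ∃ C : ℕ, 1 ≤ C ∧ ∀ (n T : ℕ) (L : List (Bool × ℕ)),
      1 ≤ T → C * T ≤ n → L.length ≤ T → (∀ qb ∈ L, 1 ≤ qb.2) →
      ∀ (P : ℕ) (R : RAMachine (MvPolynomial (Fin n) ℤ) (Fin (n ^ (C * T))) P L), 1 ≤ P →
        total L * P ≤ n ^ (A * n) → R.Lists (n ^ (K * n)) →
        ∃ f : Fin (n ^ (C * T)) → MvPolynomial (Fin n) ℤ,
          (∀ c, (f c).totalDegree ≤ n ^ C ∧ (f c).support.card ≤ n ^ (C * T)) ∧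
          ∀ (F : Type) [Field F] [CharZero F],
            R.success T f (∃ z : Fin n → F, ∀ c, aeval z (f c) = 0) ≤
              1 / 2 + 1 / (n : ℝ) ^ T) :=
  ⟨fun F _ n M => etr_upper F n M, fun ε K hε => etr_alt ε hε K, fun A K => etr_asym A K⟩

end Pool.Agent.Results.MP_47b99f_lc.GuessedReals
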